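import Pool.Agent.Lib.MP_ed7968_lc.Runs

namespace Pool.Agent.Results.MP_ed7968_lc.RunBounds

/-- Explicit bounds on the runs of the Rule 30 centre column: for every time `T` the centre cell
is white at some time in `[T, 8T/5 + 2]` and black at some time in `[T, 16T/5]`. -/
theorem result : ∀ T : ℕ,
    (∃ t : ℕ, T ≤ t ∧ 5 * t ≤ 8 * T + 10 ∧
      ((fun (f : ℤ → Bool) (i : ℤ) => Bool.xor (f (i - 1)) (f i || f (i + 1)))^[t]
        (fun i : ℤ => decide (i = 0))) 0 = false) ∧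
    (∃ t : ℕ, T ≤ t ∧ 5 * t ≤ 16 * T ∧
      ((fun (f : ℤ → Bool) (i : ℤ) => Bool.xor (f (i - 1)) (f i || f (i + 1)))^[t]
        (fun i : ℤ => decide (i = 0))) 0 = true) :=
  fun T => ⟨Pool.Agent.Lib.MP_ed7968_lc.white T, Pool.Agent.Lib.MP_ed7968_lc.black T⟩

end Pool.Agent.Results.MP_ed7968_lc.RunBounds
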